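import Pool.Agent.H72.UZ.TarY
import Pool.Agent.H45.UZ.TarP

/-! W3a: restrictions of isomorphisms of towers to the cores. -/

set_option linter.unusedVariables false

open Ordinal Order Set
open scoped ZFSet

namespace SE.UZ

open SF

namespace W3a

theorem im_congr {f g s : V} (h : ∀ i ∈ s, app f i = app g i) : im f s = im g s := by
  unfold im
  ext z
  rw [mem_imS, mem_imS]
  constructor
  · rintro ⟨x, hx, rfl⟩
    exact ⟨x, hx, (h x hx).symm⟩
  · rintro ⟨x, hx, rfl⟩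
    exact ⟨x, hx, h x hx⟩

end W3a

open W3a in
theorem pf_W3a (hQI1 : T_QI1) (hQI3 : T_QI3) (hPWE : T_PWE) (hPOT : T_POT) (hPHB : T_PHB)
    (hLL : T_LL) (hRH : T_RH) (hW0 : T_W0) : T_W3a := by
  intro D κ b hA hb T hT π ρ' hπ ξ hξ π' hπ'
  have hD : D.Ok := hA.ok
  have kN : ZFm D.N := hD.zfc.toZFCm.toZFm
  have hHN : ∀ x ∈ D.H, D.N x := fun x hx => kN.trans _ hD.hN x hx
  obtain ⟨w1, w2, w3, w4, w5, w6⟩ := hW0 D κ b hA hb T hT
  obtain ⟨hObs, hWd, hsub⟩ := w4 ξ hξ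
  set K := tK T ξ with hK
  set h := tH T ξ with hh
  set s := b.u K with hs
  have hCS : CS D s := hb.cs K hObs.o
  have hNs : D.N s := hHN _ hCS.h
  have hTs : Tr s := fun i hi => (hCS.c i hi).2
  -- the views
  have hvw : ∀ j ∈ s, b.Co j → vw j ⊆ s := by
    intro j hj hc
    obtain ⟨-, ⟨A, hA1, hA2⟩, -⟩ := hObs.v j hj hc
    rw [← hA2]
    exact (hb.leO A K hA1).2.2
  have hVws : Vws b.S' s := by
    intro i hi e he hk
    rcases he with he | he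
    · exact hb.rk K hObs.o i hi e he hk
    · subst he
      exact hvw i hi hk
  have hVwS : Vws b.S s := fun i hi e he hk => hVws i hi e (Or.inl he) hk
  have hSl' : Sl (b.l + 2) b.S' := by
    intro e he
    rcases he with he | he
    · have := hb.sl e he
      omega
    · have := hb.l3
      omega
  have hSl : Sl b.l b.S := by
    intro e he
    have := hb.sl e he
    omega
  -- the restriction
  obtain ⟨q1, q2, q3, q4, q5⟩ := hQI1 D hD _ _ _ _ _ hSl' hπ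
  obtain ⟨r1, r2, r3, r4, r5, r6⟩ := q5 s hNs hsub hTs hVws
  rw [← hπ'] at r1 r2 r5 r6
  obtain ⟨t1, t2, t3, t4, t5⟩ := hQI1 D hD _ _ _ _ _ hSl' r1
  have hI : Isl D b.l b.S π' s (im π s) := t4 b.l b.S (by omega) fun k hk => Or.inl hk
  obtain ⟨⟨u1, u2, u3, u4, u5, u6, u7⟩, v2, v3, v4, v5⟩ := hQI1 D hD _ _ _ _ _ hSl hI
  have him : im π' s = im π s := im_congr r2
  have hco : ∀ j ∈ s, b.Co j → b.Co (app π j) ∧ tm (app π j) = tm j ∧
      vw (app π j) = im π (vw j) := by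
    intro j hj hc
    have h1 := (hπ.k j (hsub hj) b.l hb.l3 (by omega)).1 hc
    obtain ⟨h2, h3, h4⟩ := hπ.v j (hsub hj) b.l (Or.inr rfl) hc
    exact ⟨h1, h4, h3⟩
  have hco' : ∀ j ∈ s, b.Co j → vw (app π' j) = im π' (vw j) := by
    intro j hj hc
    rw [r2 j hj, (hco j hj hc).2.2]
    exact (im_congr fun i hi => r2 i (hvw j hj hc hi)).symm
  obtain ⟨p1, p2, p3⟩ := hPOT D κ hA b hb π' K (im π s) hObs hI hco'
  refine ⟨hI, p1, hco, ?_⟩
  -- the world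
  have hIw : b.Iw D (b.Wd D) (b.rho D ξ) K h := (hPWE b D _ _ _).1 hWd
  have hHis : His D s h (b.rho D ξ) := hIw.wo.hs
  have hctx : Ctx D κ b (b.rho D ξ) := ⟨hA, hb, ((hRH D κ b hA hb).1 ξ hξ).2.2⟩
  have hPV := (hLL D κ b _ hctx).1
  have hSI : b.SI D (b.rho D ξ) π' K (im π s) := by
    refine ⟨hI, hObs, fun j hj hc => ⟨hco' j hj hc, ?_⟩⟩
    rw [r2 j hj, (hco j hj hc).2.1]
  have hmv : mvh π' h = mvh π h := by
    have h0 : His D (b.ut κ T) ∅ (b.rho D ξ) :=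
      ⟨kN.mempty, fun z hz => absurd hz (ZFSet.notMem_empty z)⟩
    obtain ⟨-, -, -, -, m1, -⟩ := hPHB D hD _ _ _ _ _ hSl' hπ ∅ _ h0
    obtain ⟨-, m2⟩ := m1 s hNs hsub hTs hVws 0
    rw [hπ']
    exact (m2 h hHis).1
  rw [← hmv]
  refine hPV.w π' K (im π s) h hWd hSI ?_
  intro e he hL G hG X y hE hP
  -- pull back the filter
  obtain ⟨g1, g2, g3, g4, g5, g6⟩ := hQI3 D hD _ _ _ _ _ hSl u7 G hG _ rfl
  set G0 := gi D (inv π') s G with hG0
  rw [u5] at g3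
  obtain ⟨k1, k2, k3, k4, k5, k6⟩ := hQI3 D hD _ _ _ _ _ hSl hI G0 g1 _ g3.symm
  obtain ⟨-, -, -, n4, -, -⟩ := hPHB D hD _ _ _ _ _ hSl hI h _ hHis
  have hE0 : Ent h G0 X y e := by
    have := (n4 G0 g1 X y e).1
    rw [g3] at this
    exact this hE
  refine (hIw.w3 e he hL G0 g1 X y hE0).1 ?_
  obtain ⟨i', hi', hk', hX⟩ := hP
  rw [p2] at hi'
  obtain ⟨i, hi, rfl⟩ := mem_imS.1 hi'
  refine ⟨i, hi, ?_, ?_⟩
  · exact (hπ.k i (hsub hi) (b.l + 2) (by have := hb.l3; omega) le_rfl).2 hk'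
  · rw [hX]
    have := (k5 i hi).2.2
    rw [r2 i hi] at this
    rw [this]

end SE.UZ
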